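import Pool.Agent.TH612.GS.Stm
import Pool.Agent.W40.BU.TL
import Pool.Agent.W479.BU.Msz
import Pool.Agent.W335.SD.SMel
import Pool.Agent.W32.SD.SMelG
import Pool.Agent.W352.SD.SPlan
import Pool.Agent.W261.SD.SGamLow
import Pool.Agent.W356.SD.Big
import Pool.Agent.W108.SD.SRep
import Pool.Agent.W85.SD.Small
import Pool.Agent.W688.SD.SAN

set_option autoImplicit false

/-!
Project GS (helper612), SM: second moment of zeta on `[0, 2T]` (job 4426, helper570).
-/

namespace Pool.Agent.TH570.GS

open Complex Filter Topology MeasureTheory Set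

theorem msz : Pool.Agent.W475.BU.S_MSZ :=
  Pool.Agent.W479.BU.msz Pool.Agent.W40.BU.TL.tl
    (Pool.Agent.W688.SD.san (Pool.Agent.W32.SD.smelG Pool.W335.SD.smel)
      Pool.Agent.W352.SD.splan Pool.Agent.W261.SD.sgamlow
      Pool.Agent.W356.SD.sbig Pool.Agent.W108.SD.srep Pool.Agent.W85.SD.ssmall)

theorem z_cont : Continuous Pool.Agent.TH612.GS.z := by
  rw [continuous_iff_continuousAt]
  intro u
  have h1 : (1 / 2 + I * (u : ℂ)) ≠ 1 := by
    intro h
    have := congrArg Complex.re h
    norm_num at this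
  have h2 : ContinuousAt riemannZeta (1 / 2 + I * (u : ℂ)) :=
    (differentiableAt_riemannZeta h1).continuousAt
  have h3 : ContinuousAt (fun u : ℝ => (1 / 2 + I * (u : ℂ))) u := by fun_prop
  exact ContinuousAt.comp (f := fun u : ℝ => (1 / 2 + I * (u : ℂ))) h2 h3

theorem grow (G : ℝ → ℝ) (C T1 : ℝ) (hC : 0 < C) (hT1 : 2 ≤ T1) (hG : Monotone G)
    (h : ∀ T, T1 ≤ T → G (3 * T) ≤ G (T / 2) + C * T * Real.log T) (n : ℕ) :
    ∀ x : ℝ, 1 ≤ x → x ≤ 3 * T1 * 6 ^ n → G x ≤ G (3 * T1) + C * x * Real.log x := by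
  induction n with
  | zero =>
    intro x hx hx2
    rw [pow_zero, mul_one] at hx2
    have h1 := hG hx2
    have h2 : 0 ≤ C * x * Real.log x :=
      mul_nonneg (by positivity) (Real.log_nonneg hx)
    linarith
  | succ n ih =>
    intro x hx hx2
    rcases le_or_gt x (3 * T1) with h3 | h3
    · have h1 := hG h3
      have h2 : 0 ≤ C * x * Real.log x :=
        mul_nonneg (by positivity) (Real.log_nonneg hx)
      linarith
    · have h4 := h (x / 3) (by linarith)
      have e1 : 3 * (x / 3) = x := by ring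
      have e2 : x / 3 / 2 = x / 6 := by ring
      rw [e1, e2] at h4
      have h5 := ih (x / 6) (by linarith) (by
        rw [pow_succ] at hx2
        linarith)
      have h6 : Real.log (x / 3) ≤ Real.log x :=
        Real.log_le_log (by linarith) (by linarith)
      have h7 : Real.log (x / 6) ≤ Real.log x :=
        Real.log_le_log (by linarith) (by linarith)
      have h8 : 0 ≤ Real.log x := Real.log_nonneg hx
      have h9 : C * (x / 3) * Real.log (x / 3) ≤ C * (x / 3) * Real.log x :=
        mul_le_mul_of_nonneg_left h6 (by positivity)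
      have h10 : C * (x / 6) * Real.log (x / 6) ≤ C * (x / 6) * Real.log x :=
        mul_le_mul_of_nonneg_left h7 (by positivity)
      have h11 : 0 ≤ C * x * Real.log x := by positivity
      nlinarith

theorem t_SM : Pool.Agent.TH612.GS.S_SM := by
  obtain ⟨C, T1, hC, hT1, h⟩ := msz
  set z := Pool.Agent.TH612.GS.z with hz
  have hcont : Continuous fun u : ℝ => ‖z u‖ ^ 2 := (z_cont.norm).pow 2
  set G : ℝ → ℝ := fun x => ∫ u in (0:ℝ)..x, ‖z u‖ ^ 2 with hGd
  have hint : ∀ a b : ℝ, IntervalIntegrable (fun u : ℝ => ‖z u‖ ^ 2) volume a b :=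
    fun a b => hcont.intervalIntegrable a b
  have hadd : ∀ a b : ℝ, G b = G a + ∫ u in a..b, ‖z u‖ ^ 2 := fun a b =>
    (intervalIntegral.integral_add_adjacent_intervals (hint 0 a) (hint a b)).symm
  have hmono : Monotone G := by
    intro a b hab
    rw [hadd a b]
    have := intervalIntegral.integral_nonneg (f := fun u : ℝ => ‖z u‖ ^ 2) (μ := volume) hab
      (fun u _ => by positivity)
    linarith
  have hstep : ∀ T, T1 ≤ T → G (3 * T) ≤ G (T / 2) + C * T * Real.log T := by
    intro T hT
    rw [hadd (T / 2) (3 * T)]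
    have h1 := h T (1 / 2) hT le_rfl
    have e : (fun t : ℝ => ‖riemannZeta (((1 / 2 : ℝ) : ℂ) + t * I)‖ ^ 2) =
        fun u : ℝ => ‖z u‖ ^ 2 := by
      funext u
      rw [hz]
      unfold Pool.Agent.TH612.GS.z
      push_cast
      rw [mul_comm (u : ℂ) I]
    rw [e] at h1
    linarith
  have hK : 0 ≤ G (3 * T1) := by
    have := hmono (show (0 : ℝ) ≤ 3 * T1 by linarith)
    have e0 : G 0 = 0 := by simp [hGd]
    linarith
  refine ⟨G (3 * T1) + 4 * C, 3, by positivity, by norm_num, fun T hT => ?_⟩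
  obtain ⟨n, hn⟩ := pow_unbounded_of_one_lt (2 * T) (show (1 : ℝ) < 6 by norm_num)
  have h1 := grow G C T1 hC hT1 hmono hstep n (2 * T) (by linarith) (by
    have : (1 : ℝ) ≤ 3 * T1 := by linarith
    nlinarith [pow_pos (show (0 : ℝ) < 6 by norm_num) n])
  have hlog1 : 1 ≤ Real.log T := by
    rw [Real.le_log_iff_exp_le (by linarith)]
    linarith [Real.exp_one_lt_d9]
  have hlog2 : Real.log (2 * T) ≤ 2 * Real.log T := by
    have e : 2 * Real.log T = Real.log (T ^ 2) := by
      rw [Real.log_pow]; norm_num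
    rw [e]
    apply Real.log_le_log (by linarith)
    nlinarith
  have h2 : C * (2 * T) * Real.log (2 * T) ≤ C * (2 * T) * (2 * Real.log T) :=
    mul_le_mul_of_nonneg_left hlog2 (by positivity)
  have h3 : G (3 * T1) ≤ G (3 * T1) * (T * Real.log T) := by
    have : 1 ≤ T * Real.log T := by nlinarith
    nlinarith
  show G (2 * T) ≤ _
  calc G (2 * T) ≤ G (3 * T1) + C * (2 * T) * Real.log (2 * T) := h1
    _ ≤ G (3 * T1) * (T * Real.log T) + C * (2 * T) * (2 * Real.log T) := by linarith
    _ = (G (3 * T1) + 4 * C) * T * Real.log T := by ring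

end Pool.Agent.TH570.GS
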